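import Pool.Agent.Y576.TH.Tdm
import Pool.Agent.H579R3.SB

/-!
Project TC: automorphism groups of structures, acting on expansions. A transversal for the left
cosets of a closed group of permutations, and the dichotomy for the automorphism group of a
structure from the dichotomy for the group of all permutations.
-/

set_option autoImplicit false

namespace Pool.Agent.Y560.TC

open Set MeasureTheory
open Pool.Agent.Y560.TH (XB HD HDr Modl IsoB S_TD)
open Pool.Agent.Y576.TH (isoB_symm isoB_trans bsB)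

/-! ### The join of two structures -/

section join

variable {Γ₀ Γ : Type}

/-- The join of two structures. -/
def J (N : XB Γ₀) (x : XB Γ) : XB (Γ₀ × Γ) :=
  (fun i m n => if i % 2 = 0 then N.1 (i / 2) m n else x.1 (i / 2) m n,
   fun g m => N.2.1 g.1 (x.2.1 g.2 m),
   fun i m => if i % 2 = 0 then N.2.2 (i / 2) m else x.2.2 (i / 2) m)

theorem j_iso {σ : Equiv.Perm ℕ} {N M : XB Γ₀} {x y : XB Γ} (hN : IsoB σ N M)
    (hx : IsoB σ x y) : IsoB σ (J N x) (J M y) := by
  refine ⟨fun i m n => ?_, fun g m => ?_, fun i m => ?_⟩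
  · show (if i % 2 = 0 then M.1 (i / 2) (σ m) (σ n) else y.1 (i / 2) (σ m) (σ n)) =
      if i % 2 = 0 then N.1 (i / 2) m n else x.1 (i / 2) m n
    rw [hN.1, hx.1]
  · show M.2.1 g.1 (y.2.1 g.2 (σ m)) = σ (N.2.1 g.1 (x.2.1 g.2 m))
    rw [hx.2.1, hN.2.1]
  · show (if i % 2 = 0 then M.2.2 (i / 2) (σ m) else y.2.2 (i / 2) (σ m)) =
      if i % 2 = 0 then N.2.2 (i / 2) m else x.2.2 (i / 2) m
    rw [hN.2.2, hx.2.2]

theorem iso_j [Group Γ₀] [Group Γ] {σ : Equiv.Perm ℕ} {N : XB Γ₀} {x y : XB Γ}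
    (h0 : ∀ m, N.2.1 1 m = m) (hx : ∀ m, x.2.1 1 m = m) (hy : ∀ m, y.2.1 1 m = m)
    (h : IsoB σ (J N x) (J N y)) : IsoB σ N N ∧ IsoB σ x y := by
  obtain ⟨h1, h2, h3⟩ := h
  have a1 : ∀ i, (2 * i) % 2 = 0 := fun i => by omega
  have a2 : ∀ i, (2 * i) / 2 = i := fun i => by omega
  have a3 : ∀ i, ¬ (2 * i + 1) % 2 = 0 := fun i => by omega
  have a4 : ∀ i, (2 * i + 1) / 2 = i := fun i => by omega
  refine ⟨⟨fun i m n => ?_, fun g m => ?_, fun i m => ?_⟩,
    ⟨fun i m n => ?_, fun g m => ?_, fun i m => ?_⟩⟩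
  · have h4 := h1 (2 * i) m n
    simp only [J, a1, a2, if_true] at h4
    exact h4
  · have h4 := h2 (g, 1) m
    simp only [J, hx, hy] at h4
    exact h4
  · have h4 := h3 (2 * i) m
    simp only [J, a1, a2, if_true] at h4
    exact h4
  · have h4 := h1 (2 * i + 1) m n
    simp only [J, a3, a4, if_false] at h4
    exact h4
  · have h4 := h2 (1, g) m
    simp only [J, h0] at h4
    exact h4
  · have h4 := h3 (2 * i + 1) m
    simp only [J, a3, a4, if_false] at h4
    exact h4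

theorem isoB_one (x : XB Γ) : IsoB (Equiv.refl ℕ) x x :=
  ⟨fun _ _ _ => rfl, fun _ _ => rfl, fun _ _ => rfl⟩

theorem hd_iso [Group Γ] {σ : Equiv.Perm ℕ} {x y : XB Γ} (h : IsoB σ x y) (hx : HD x) :
    HD y := by
  have h' := isoB_symm h
  refine ⟨fun F hF => ?_, fun m => ?_, fun γ δ m => ?_, fun γ i m n => ?_⟩
  · obtain ⟨X, ⟨h1, h2⟩, h3, h4⟩ := hx.dec (F.map σ.symm.toEmbedding)
      (by rw [Finset.card_map]; exact hF)
    have h5 : ∀ u, u ∈ X.map σ.toEmbedding ↔ σ.symm u ∈ X := fun u => Finset.mem_map_equiv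
    have h6 : ∀ u, σ.symm u ∈ F.map σ.symm.toEmbedding ↔ u ∈ F := fun u => by
      rw [Finset.mem_map_equiv, Equiv.symm_symm, Equiv.apply_symm_apply]
    refine ⟨X.map σ.toEmbedding, ⟨fun u hu => (h6 u).1 (h1 ((h5 u).1 hu)),
      fun u hu v hv w hw hwX i => ?_⟩, by rw [Finset.card_map]; exact h3, fun hc => h4 ?_⟩
    · have h7 := h2 _ ((h5 u).1 hu) _ ((h5 v).1 hv) _ ((h6 w).2 hw)
        (fun hc => hwX ((h5 w).2 hc)) i
      rw [h'.1, h'.1, h'.1, h'.1] at h7
      exact h7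
    · ext u
      have h8 : u = σ.symm (σ u) := (σ.symm_apply_apply u).symm
      rw [h8, ← h5, h6, hc]
  · rw [← σ.apply_symm_apply m, h.2.1, hx.one]
  · rw [← σ.apply_symm_apply m, h.2.1, h.2.1, h.2.1, hx.mul]
  · rw [← σ.apply_symm_apply m, ← σ.apply_symm_apply n, h.2.1, h.2.1, h.1, h.1, hx.auto]

end join

/-! ### Codes for permutations -/

/-- The code of a permutation. -/
def code (σ : Equiv.Perm ℕ) : ℕ → ℕ := fun i => if i % 2 = 0 then σ (i / 2) else σ.symm (i / 2)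

/-- Codes for permutations. -/
def IsC (c : ℕ → ℕ) : Prop := (∀ k, c (2 * c (2 * k) + 1) = k) ∧ ∀ k, c (2 * c (2 * k + 1)) = k

theorem code_even (σ : Equiv.Perm ℕ) (k : ℕ) : code σ (2 * k) = σ k := by
  have h1 : (2 * k) % 2 = 0 := by omega
  have h2 : (2 * k) / 2 = k := by omega
  simp only [code, h1, h2, if_true]

theorem code_odd (σ : Equiv.Perm ℕ) (k : ℕ) : code σ (2 * k + 1) = σ.symm k := by
  have h1 : ¬ (2 * k + 1) % 2 = 0 := by omega
  have h2 : (2 * k + 1) / 2 = k := by omega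
  simp only [code, h1, h2, if_false]

theorem isC_code (σ : Equiv.Perm ℕ) : IsC (code σ) :=
  ⟨fun k => by rw [code_even, code_odd, σ.symm_apply_apply],
    fun k => by rw [code_odd, code_even, σ.apply_symm_apply]⟩

theorem ext_code {c d : ℕ → ℕ} (h0 : ∀ k, c (2 * k) = d (2 * k))
    (h1 : ∀ k, c (2 * k + 1) = d (2 * k + 1)) : c = d := by
  funext i
  rcases Nat.even_or_odd' i with ⟨k, rfl | rfl⟩
  · exact h0 k
  · exact h1 k

theorem isC_ex {c : ℕ → ℕ} (h : IsC c) : ∃ σ : Equiv.Perm ℕ, c = code σ :=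
  ⟨⟨fun k => c (2 * k), fun k => c (2 * k + 1), h.1, h.2⟩,
    ext_code (fun k => by rw [code_even]; rfl) fun k => by rw [code_odd]; rfl⟩

theorem code_inj {σ τ : Equiv.Perm ℕ} (h : code σ = code τ) : σ = τ := by
  ext k
  rw [← code_even, h, code_even]

/-- The lexicographic order. -/
def lx (c d : ℕ → ℕ) : Prop := ∃ n, (∀ i < n, c i = d i) ∧ c n < d n

theorem lx_total {c d : ℕ → ℕ} (h : c ≠ d) : lx c d ∨ lx d c := by
  classical
  have h1 : ∃ n, c n ≠ d n := by
    by_contra hc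
    push Not at hc
    exact h (funext hc)
  have h2 : ∀ i < Nat.find h1, c i = d i := fun i hi => not_not.1 (Nat.find_min h1 hi)
  rcases lt_or_gt_of_ne (Nat.find_spec h1) with h3 | h3
  · exact Or.inl ⟨_, h2, h3⟩
  · exact Or.inr ⟨_, fun i hi => (h2 i hi).symm, h3⟩

theorem lexmin {K : Set (ℕ → ℕ)} (hK : IsClosed K) (hne : K.Nonempty) :
    ∃ c ∈ K, ∀ d ∈ K, ¬ lx d c := by
  have h1 : ∀ (n : ℕ) (d : K), ∃ e : K, (∀ i < n, e.1 i = d.1 i) ∧
      ∀ e' ∈ K, (∀ i < n, e' i = e.1 i) → e.1 n ≤ e' n := by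
    intro n d
    obtain ⟨e, he, hm⟩ := WellFounded.has_min (measure (fun e : ℕ → ℕ => e n)).wf
      {e | e ∈ K ∧ ∀ i < n, e i = d.1 i} ⟨d.1, d.2, fun _ _ => rfl⟩
    refine ⟨⟨e, he.1⟩, he.2, fun e' he' h => ?_⟩
    by_contra hc
    exact hm e' ⟨he', fun i hi => (h i hi).trans (he.2 i hi)⟩ (not_le.1 hc)
  choose F hF1 hF2 using h1
  obtain ⟨d0, hd0⟩ := hne
  let D : ℕ → K := fun n => Nat.rec (F 0 ⟨d0, hd0⟩) (fun n d => F (n + 1) d) n
  have hD : ∀ n, D (n + 1) = F (n + 1) (D n) := fun n => rfl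
  have hs : ∀ n i, i ≤ n → (D (n + 1)).1 i = (D n).1 i := fun n i hi => by
    rw [hD]
    exact hF1 _ _ i (Nat.lt_succ_of_le hi)
  have hst : ∀ m n i, i ≤ n → n ≤ m → (D m).1 i = (D n).1 i := by
    intro m n i hi hnm
    induction m, hnm using Nat.le_induction with
    | base => rfl
    | succ m hm ih => rw [hs m i (hi.trans hm), ih]
  have hmin : ∀ n, ∀ e' ∈ K, (∀ i < n, e' i = (D n).1 i) → (D n).1 n ≤ e' n := by
    intro n
    cases n with
    | zero => exact hF2 0 _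
    | succ n => exact hF2 (n + 1) _
  refine ⟨fun i => (D i).1 i, ?_, ?_⟩
  · refine hK.mem_of_tendsto (f := fun n => (D n).1) (b := Filter.atTop) ?_
      (Filter.Eventually.of_forall fun n => (D n).2)
    rw [tendsto_pi_nhds]
    intro i
    refine tendsto_const_nhds.congr' ?_
    filter_upwards [Filter.eventually_ge_atTop i] with n hn
    exact (hst n i i le_rfl hn).symm
  · rintro d hd ⟨n, h1, h2⟩
    have h3 := hmin n d hd (fun i hi => by
      rw [h1 i hi]
      exact (hst n i i le_rfl hi.le).symm)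
    exact absurd h2 (not_lt.2 h3)

/-- The code of the composition. -/
def kc (h : Equiv.Perm ℕ) (c : ℕ → ℕ) : ℕ → ℕ :=
  fun i => if i % 2 = 0 then c (2 * h (i / 2)) else h.symm (c i)

theorem kc_code (h σ : Equiv.Perm ℕ) : kc h (code σ) = code (h.trans σ) := by
  refine ext_code (fun k => ?_) fun k => ?_
  · have h1 : (2 * k) % 2 = 0 := by omega
    have h2 : (2 * k) / 2 = k := by omega
    rw [code_even]
    simp only [kc, h1, h2, if_true, code_even]
    rfl
  · have h1 : ¬ (2 * k + 1) % 2 = 0 := by omega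
    rw [code_odd]
    simp only [kc, h1, if_false, code_odd]
    rfl

theorem cont_kc (h : Equiv.Perm ℕ) (i : ℕ) : Continuous fun c : ℕ → ℕ => kc h c i := by
  by_cases hi : i % 2 = 0
  · have : (fun c : ℕ → ℕ => kc h c i) = fun c => c (2 * h (i / 2)) := by
      funext c
      simp only [kc, hi, if_true]
    rw [this]
    exact continuous_apply _
  · have : (fun c : ℕ → ℕ => kc h c i) = fun c => h.symm (c i) := by
      funext c
      simp only [kc, hi, if_false]
    rw [this]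
    exact (continuous_of_discreteTopology (f := fun n : ℕ => h.symm n)).comp (continuous_apply i)

theorem closed_isC : IsClosed {c : ℕ → ℕ | IsC c} := by
  have h1 : ∀ k : ℕ, Continuous fun c : ℕ → ℕ => c k := fun k => continuous_apply k
  have h2 : {c : ℕ → ℕ | IsC c} = (⋂ k, ⋂ l, {c | c (2 * k) = l → c (2 * l + 1) = k}) ∩
      ⋂ k, ⋂ l, {c | c (2 * k + 1) = l → c (2 * l) = k} := by
    ext c
    simp only [mem_inter_iff, mem_iInter, mem_setOf_eq]
    constructor
    · rintro ⟨h3, h4⟩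
      exact ⟨fun k l h => h ▸ h3 k, fun k l h => h ▸ h4 k⟩
    · rintro ⟨h3, h4⟩
      exact ⟨fun k => h3 k _ rfl, fun k => h4 k _ rfl⟩
  have h3 : ∀ a b k l : ℕ, IsClosed {c : ℕ → ℕ | c a = k → c b = l} := fun a b k l =>
    (isClosed_discrete {p : ℕ × ℕ | p.1 = k → p.2 = l}).preimage ((h1 a).prodMk (h1 b))
  rw [h2]
  exact (isClosed_iInter fun k => isClosed_iInter fun l => h3 _ _ _ _).inter
    (isClosed_iInter fun k => isClosed_iInter fun l => h3 _ _ _ _)

/-! ### The transversal -/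

section tv

variable {Γ₀ : Type}

/-- The codes of the lexicographically least elements of the left cosets of the automorphism
group. -/
def T (N : XB Γ₀) : Set (ℕ → ℕ) :=
  {c | IsC c ∧ ∀ h : Equiv.Perm ℕ, IsoB h N N → ¬ lx (kc h c) c}

theorem closed_T (N : XB Γ₀) : IsClosed (T N) := by
  have h1 : T N = {c | IsC c} ∩ (⋃ (h : Equiv.Perm ℕ) (_ : IsoB h N N) (n : ℕ),
      ((⋂ i ∈ {i | i < n}, {c : ℕ → ℕ | kc h c i = c i}) ∩ {c | kc h c n < c n}))ᶜ := by
    ext c
    simp only [T, lx, mem_inter_iff, mem_setOf_eq, mem_compl_iff, mem_iUnion, mem_iInter,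
      not_exists]
  rw [h1]
  refine closed_isC.inter (isOpen_iUnion fun h => isOpen_iUnion fun _ => isOpen_iUnion fun n =>
    IsOpen.inter ((Set.finite_lt_nat n).isOpen_biInter fun i _ => ?_) ?_).isClosed_compl
  · exact (isOpen_discrete {p : ℕ × ℕ | p.1 = p.2}).preimage
      ((cont_kc h i).prodMk (continuous_apply i))
  · exact (isOpen_discrete {p : ℕ × ℕ | p.1 < p.2}).preimage
      ((cont_kc h n).prodMk (continuous_apply n))

theorem closed_K (N : XB Γ₀) (σ : Equiv.Perm ℕ) :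
    IsClosed {c | ∃ h : Equiv.Perm ℕ, IsoB h N N ∧ c = code (h.trans σ)} := by
  have h1 : ∀ k : ℕ, Continuous fun c : ℕ → ℕ => c k := fun k => continuous_apply k
  have h3 : ∀ (a b : ℕ) (P : ℕ → ℕ → Prop), IsClosed {c : ℕ → ℕ | P (c a) (c b)} :=
    fun a b P => (isClosed_discrete {p : ℕ × ℕ | P p.1 p.2}).preimage ((h1 a).prodMk (h1 b))
  have h2 : {c | ∃ h : Equiv.Perm ℕ, IsoB h N N ∧ c = code (h.trans σ)} = {c | IsC c} ∩
      ((⋂ (i) (m) (n), {c | N.1 i (σ.symm (c (2 * m))) (σ.symm (c (2 * n))) = N.1 i m n}) ∩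
      ((⋂ (γ) (m), {c | N.2.1 γ (σ.symm (c (2 * m))) = σ.symm (c (2 * N.2.1 γ m))}) ∩
        ⋂ (i) (m), {c | N.2.2 i (σ.symm (c (2 * m))) = N.2.2 i m})) := by
    ext c
    simp only [mem_inter_iff, mem_iInter, mem_setOf_eq]
    constructor
    · rintro ⟨h, hh, rfl⟩
      have h4 : ∀ m, σ.symm (code (h.trans σ) (2 * m)) = h m := fun m => by
        rw [code_even]
        exact σ.symm_apply_apply _
      refine ⟨isC_code _, fun i m n => ?_, fun γ m => ?_, fun i m => ?_⟩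
      · rw [h4, h4, hh.1]
      · rw [h4, h4, hh.2.1]
      · rw [h4, hh.2.2]
    · rintro ⟨h4, h5, h6, h7⟩
      obtain ⟨τ, rfl⟩ := isC_ex h4
      simp only [code_even] at h5 h6 h7
      refine ⟨τ.trans σ.symm, ⟨h5, h6, h7⟩, ?_⟩
      congr 1
      ext k
      show τ k = σ (σ.symm (τ k))
      rw [σ.apply_symm_apply]
  rw [h2]
  refine closed_isC.inter (IsClosed.inter ?_ (IsClosed.inter ?_ ?_))
  · exact isClosed_iInter fun i => isClosed_iInter fun m => isClosed_iInter fun n =>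
      h3 (2 * m) (2 * n) fun a b => N.1 i (σ.symm a) (σ.symm b) = N.1 i m n
  · exact isClosed_iInter fun γ => isClosed_iInter fun m =>
      h3 (2 * m) (2 * N.2.1 γ m) fun a b => N.2.1 γ (σ.symm a) = σ.symm b
  · exact isClosed_iInter fun i => isClosed_iInter fun m =>
      h3 (2 * m) (2 * m) fun a _ => N.2.2 i (σ.symm a) = N.2.2 i m

theorem ex_rep (N : XB Γ₀) (σ : Equiv.Perm ℕ) :
    ∃ h : Equiv.Perm ℕ, IsoB h N N ∧ code (h.trans σ) ∈ T N := by
  obtain ⟨c, ⟨h, hh, rfl⟩, hm⟩ := lexmin (closed_K N σ) ⟨_, Equiv.refl ℕ, isoB_one N, rfl⟩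
  refine ⟨h, hh, isC_code _, fun g hg => hm _ ⟨g.trans h, isoB_trans hg hh, ?_⟩⟩
  rw [kc_code]
  rfl

theorem uniq_rep {N : XB Γ₀} {σ σ' : Equiv.Perm ℕ} (hh : IsoB (σ.trans σ'.symm) N N)
    (h1 : code σ ∈ T N) (h2 : code σ' ∈ T N) : σ = σ' := by
  by_contra hne
  rcases lx_total (fun hc => hne (code_inj hc)) with h3 | h3
  · refine h2.2 _ hh ?_
    rw [kc_code]
    have : (σ.trans σ'.symm).trans σ' = σ := by
      ext k
      show σ' (σ'.symm (σ k)) = σ k
      rw [σ'.apply_symm_apply]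
    rw [this]
    exact h3
  · refine h1.2 _ (isoB_symm hh) ?_
    rw [kc_code]
    have : (σ.trans σ'.symm).symm.trans σ = σ' := by
      ext k
      show σ (σ.symm (σ' k)) = σ' k
      rw [σ.apply_symm_apply]
    rw [this]
    exact h3

end tv

/-! ### Transport -/

section transport

variable {Δ : Type}

/-- Transport of structure by a code. -/
def tr (c : ℕ → ℕ) (x : XB Δ) : XB Δ :=
  (fun i m n => x.1 i (c (2 * m + 1)) (c (2 * n + 1)),
    fun γ m => c (2 * x.2.1 γ (c (2 * m + 1))), fun i m => x.2.2 i (c (2 * m + 1)))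

theorem tr_iso (σ : Equiv.Perm ℕ) (x : XB Δ) : IsoB σ x (tr (code σ) x) := by
  refine ⟨fun i m n => ?_, fun γ m => ?_, fun i m => ?_⟩
  · simp only [tr, code_odd, σ.symm_apply_apply]
  · simp only [tr, code_odd, code_even, σ.symm_apply_apply]
  · simp only [tr, code_odd, σ.symm_apply_apply]

theorem tr_eq {σ : Equiv.Perm ℕ} {x z : XB Δ} (h : IsoB σ x z) : tr (code σ) x = z := by
  refine Prod.ext ?_ (Prod.ext ?_ ?_)
  · funext i m n
    simp only [tr, code_odd]
    rw [← h.1, σ.apply_symm_apply, σ.apply_symm_apply]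
  · funext γ m
    simp only [tr, code_odd, code_even]
    rw [← h.2.1, σ.apply_symm_apply]
  · funext i m
    simp only [tr, code_odd]
    rw [← h.2.2, σ.apply_symm_apply]

theorem iso_refl_eq {x z : XB Δ} (h : IsoB (Equiv.refl ℕ) x z) : x = z :=
  Prod.ext (by funext i m n; exact (h.1 i m n).symm) (Prod.ext
    (by funext γ m; exact (h.2.1 γ m).symm) (by funext i m; exact (h.2.2 i m).symm))

end transport

/-! ### Measurability -/

theorem m_ev {Ω β : Type*} [MeasurableSpace Ω] [MeasurableSpace β] {f : ℕ → Ω → β}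
    {g : Ω → ℕ} (hg : Measurable g) (hf : ∀ k, Measurable (f k)) :
    Measurable fun ω => f (g ω) ω :=
  (measurable_from_prod_countable_left (f := fun p : Ω × ℕ => f p.2 p.1) hf).comp
    (measurable_id.prodMk hg)

theorem measurable_of_eq {Ω β : Type*} [MeasurableSpace Ω] [MeasurableSpace β] {f g : Ω → β}
    (h : f = g) (hg : Measurable g) : Measurable f := h ▸ hg

theorem pol_of {α : Type*} [TopologicalSpace α] [h1 : SecondCountableTopology α]
    [h2 : TopologicalSpace.IsCompletelyMetrizableSpace α] : PolishSpace α := {}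

theorem polB {Γ : Type} [Countable Γ] : PolishSpace (XB Γ) := by
  have a0 : SecondCountableTopology (ℕ → Bool) := inferInstance
  have a1 : SecondCountableTopology (ℕ → ℕ → Bool) := inferInstance
  have a2 : SecondCountableTopology (ℕ → ℕ → ℕ → Bool) := inferInstance
  have a3 : SecondCountableTopology (ℕ → ℕ) := inferInstance
  have a4 : SecondCountableTopology (Γ → ℕ → ℕ) := inferInstance
  have a5 : SecondCountableTopology ((Γ → ℕ → ℕ) × (ℕ → ℕ → Bool)) := inferInstance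
  have a6 : SecondCountableTopology (XB Γ) := inferInstance
  have b0 : TopologicalSpace.IsCompletelyMetrizableSpace (ℕ → Bool) := inferInstance
  have b1 : TopologicalSpace.IsCompletelyMetrizableSpace (ℕ → ℕ → Bool) := inferInstance
  have b2 : TopologicalSpace.IsCompletelyMetrizableSpace (ℕ → ℕ → ℕ → Bool) := inferInstance
  have b3 : TopologicalSpace.IsCompletelyMetrizableSpace (ℕ → ℕ) := inferInstance
  have b4 : TopologicalSpace.IsCompletelyMetrizableSpace (Γ → ℕ → ℕ) := inferInstance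
  have b5 : TopologicalSpace.IsCompletelyMetrizableSpace ((Γ → ℕ → ℕ) × (ℕ → ℕ → Bool)) :=
    inferInstance
  have b6 : TopologicalSpace.IsCompletelyMetrizableSpace (XB Γ) := inferInstance
  exact pol_of

theorem pol_prod {α β : Type*} [TopologicalSpace α] [TopologicalSpace β] [h1 : PolishSpace α]
    [h2 : PolishSpace β] : PolishSpace (α × β) := by
  have a1 : SecondCountableTopology α := inferInstance
  have a2 : SecondCountableTopology β := inferInstance
  have a3 : SecondCountableTopology (α × β) := inferInstance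
  have b3 : TopologicalSpace.IsCompletelyMetrizableSpace (α × β) := inferInstance
  exact pol_of

theorem polC : PolishSpace (ℕ → ℕ) := by
  have a3 : SecondCountableTopology (ℕ → ℕ) := inferInstance
  have b3 : TopologicalSpace.IsCompletelyMetrizableSpace (ℕ → ℕ) := inferInstance
  exact pol_of

theorem polT : PolishSpace (ℕ → Bool) := by
  have a3 : SecondCountableTopology (ℕ → Bool) := inferInstance
  have b3 : TopologicalSpace.IsCompletelyMetrizableSpace (ℕ → Bool) := inferInstance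
  exact pol_of

theorem sepB {Γ : Type} [Countable Γ] : MeasurableSpace.CountablySeparated (XB Γ) := by
  have h1 := polB (Γ := Γ)
  have h2 : BorelSpace (XB Γ) := bsB
  have h3 : StandardBorelSpace (XB Γ) := standardBorel_of_polish
  have h4 : MeasurableSingletonClass (XB Γ) := inferInstance
  have h5 : MeasurableSpace.SeparatesPoints (XB Γ) := inferInstance
  have h6 : MeasurableSpace.CountablyGenerated (XB Γ) := inferInstance
  exact MeasurableSpace.countablySeparated_of_separatesPoints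

section meas

variable {Γ₀ Γ : Type}

theorem meas_tr (N : XB Γ₀) : Measurable fun p : (ℕ → ℕ) × XB Γ => tr p.1 (J N p.2) := by
  have c0 : ∀ k, Measurable fun p : (ℕ → ℕ) × XB Γ => p.1 k := fun k =>
    (measurable_pi_apply k).comp measurable_fst
  have x1 : ∀ i m n, Measurable fun p : (ℕ → ℕ) × XB Γ => p.2.1 i m n := fun i m n =>
    (measurable_pi_apply n).comp ((measurable_pi_apply m).comp ((measurable_pi_apply i).comp
      (measurable_fst.comp measurable_snd)))
  have x2 : ∀ γ m, Measurable fun p : (ℕ → ℕ) × XB Γ => p.2.2.1 γ m := fun γ m =>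
    (measurable_pi_apply m).comp ((measurable_pi_apply γ).comp
      (measurable_fst.comp (measurable_snd.comp measurable_snd)))
  have x3 : ∀ i m, Measurable fun p : (ℕ → ℕ) × XB Γ => p.2.2.2 i m := fun i m =>
    (measurable_pi_apply m).comp ((measurable_pi_apply i).comp
      (measurable_snd.comp (measurable_snd.comp measurable_snd)))
  refine Measurable.prodMk (measurable_pi_iff.2 fun i => measurable_pi_iff.2 fun m =>
    measurable_pi_iff.2 fun n => ?_) (Measurable.prodMk (measurable_pi_iff.2 fun g =>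
    measurable_pi_iff.2 fun m => ?_) (measurable_pi_iff.2 fun i => measurable_pi_iff.2
    fun m => ?_))
  · by_cases hi : i % 2 = 0
    · have : (fun p : (ℕ → ℕ) × XB Γ => (tr p.1 (J N p.2)).1 i m n) =
          fun p => N.1 (i / 2) (p.1 (2 * m + 1)) (p.1 (2 * n + 1)) := by
        funext p
        simp only [tr, J, hi, if_true]
      refine measurable_of_eq this ?_
      exact m_ev (f := fun k (p : (ℕ → ℕ) × XB Γ) => N.1 (i / 2) k (p.1 (2 * n + 1))) (c0 _)
        fun k => m_ev (f := fun l (_ : (ℕ → ℕ) × XB Γ) => N.1 (i / 2) k l) (c0 _)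
          fun l => measurable_const
    · have : (fun p : (ℕ → ℕ) × XB Γ => (tr p.1 (J N p.2)).1 i m n) =
          fun p => p.2.1 (i / 2) (p.1 (2 * m + 1)) (p.1 (2 * n + 1)) := by
        funext p
        simp only [tr, J, hi, if_false]
      refine measurable_of_eq this ?_
      exact m_ev (f := fun k (p : (ℕ → ℕ) × XB Γ) => p.2.1 (i / 2) k (p.1 (2 * n + 1))) (c0 _)
        fun k => m_ev (f := fun l (p : (ℕ → ℕ) × XB Γ) => p.2.1 (i / 2) k l) (c0 _)
          fun l => x1 _ _ _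
  · show Measurable fun p : (ℕ → ℕ) × XB Γ =>
      p.1 (2 * N.2.1 g.1 (p.2.2.1 g.2 (p.1 (2 * m + 1))))
    have h1 : Measurable fun p : (ℕ → ℕ) × XB Γ => p.2.2.1 g.2 (p.1 (2 * m + 1)) :=
      m_ev (f := fun k (p : (ℕ → ℕ) × XB Γ) => p.2.2.1 g.2 k) (c0 _) fun k => x2 _ _
    exact m_ev (f := fun k (p : (ℕ → ℕ) × XB Γ) => p.1 (2 * N.2.1 g.1 k)) h1 fun k => c0 _
  · by_cases hi : i % 2 = 0
    · have : (fun p : (ℕ → ℕ) × XB Γ => (tr p.1 (J N p.2)).2.2 i m) =
          fun p => N.2.2 (i / 2) (p.1 (2 * m + 1)) := by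
        funext p
        simp only [tr, J, hi, if_true]
      refine measurable_of_eq this ?_
      exact m_ev (f := fun k (_ : (ℕ → ℕ) × XB Γ) => N.2.2 (i / 2) k) (c0 _)
        fun k => measurable_const
    · have : (fun p : (ℕ → ℕ) × XB Γ => (tr p.1 (J N p.2)).2.2 i m) =
          fun p => p.2.2.2 (i / 2) (p.1 (2 * m + 1)) := by
        funext p
        simp only [tr, J, hi, if_false]
      refine measurable_of_eq this ?_
      exact m_ev (f := fun k (p : (ℕ → ℕ) × XB Γ) => p.2.2.2 (i / 2) k) (c0 _)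
        fun k => x3 _ _

end meas

/-! ### The theorem -/

/-- The dichotomy for the action of the automorphism group of `N` on expansions. -/
theorem t_TC (hTD : S_TD) (Γ₀ Γ : Type) [Group Γ₀] [Countable Γ₀] [Group Γ] [Countable Γ]
    (N : XB Γ₀) (B : Set (XB Γ)) (hB : MeasurableSet B) (h0 : ∀ m, N.2.1 1 m = m)
    (hx1 : ∀ x ∈ B, ∀ m, x.2.1 1 m = m) (hHD : ∀ x ∈ B, HD (J N x))
    (hi : ∀ x ∈ B, ∀ (y : XB Γ) (σ : Equiv.Perm ℕ), IsoB σ N N → IsoB σ x y → y ∈ B) :
    (∃ f : ℕ → XB Γ, ∀ x ∈ B, ∃ n, ∃ σ : Equiv.Perm ℕ, IsoB σ N N ∧ IsoB σ (f n) x) ∨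
    (∃ c : (ℕ → Bool) → XB Γ, Continuous c ∧ (∀ A, c A ∈ B) ∧
      ∀ A A', (∃ σ : Equiv.Perm ℕ, IsoB σ N N ∧ IsoB σ (c A) (c A')) → A = A') := by
  classical
  have b1 : BorelSpace (XB Γ) := bsB
  have b2 : BorelSpace (XB (Γ₀ × Γ)) := bsB
  have p1 : PolishSpace (XB Γ) := polB
  have p2 : PolishSpace (XB (Γ₀ × Γ)) := polB
  have s2 : MeasurableSpace.CountablySeparated (XB (Γ₀ × Γ)) := sepB
  have p3' := polC
  have p4' := polT
  have p3 : PolishSpace ((ℕ → ℕ) × XB Γ) := pol_prod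
  have b3 : BorelSpace ((ℕ → ℕ) × XB Γ) := Prod.borelSpace
  have p4 : PolishSpace ((ℕ → Bool) × ((ℕ → ℕ) × XB Γ)) := pol_prod
  have b4 : BorelSpace ((ℕ → Bool) × ((ℕ → ℕ) × XB Γ)) := Prod.borelSpace
  set Φ : (ℕ → ℕ) × XB Γ → XB (Γ₀ × Γ) := fun p => tr p.1 (J N p.2) with hΦ
  have hΦm : Measurable Φ := meas_tr N
  have hTm : MeasurableSet (T N) := (closed_T N).measurableSet
  -- isomorphisms between joins
  have key : ∀ x ∈ B, ∀ y ∈ B, ∀ σ : Equiv.Perm ℕ, IsoB σ (J N x) (J N y) →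
      IsoB σ N N ∧ IsoB σ x y := fun x hx y hy σ h => iso_j h0 (hx1 x hx) (hx1 y hy) h
  have hinj : InjOn Φ (T N ×ˢ B) := by
    rintro ⟨c, x⟩ ⟨hc, hx⟩ ⟨c', x'⟩ ⟨hc', hx'⟩ he
    obtain ⟨σ, rfl⟩ := isC_ex hc.1
    obtain ⟨σ', rfl⟩ := isC_ex hc'.1
    have h1 : IsoB σ (J N x) (tr (code σ) (J N x)) := tr_iso _ _
    have h2 : IsoB σ' (J N x') (tr (code σ') (J N x')) := tr_iso _ _
    have he' : tr (code σ) (J N x) = tr (code σ') (J N x') := he
    rw [← he'] at h2
    have h3 := isoB_trans h1 (isoB_symm h2)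
    obtain ⟨h4, h5⟩ := key x hx x' hx' _ h3
    have h6 : σ = σ' := uniq_rep h4 hc hc'
    subst h6
    rw [Equiv.self_trans_symm] at h5
    rw [iso_refl_eq h5]
  have hB' : MeasurableSet (Φ '' (T N ×ˢ B)) :=
    (hTm.prod hB).image_of_measurable_injOn hΦm hinj
  have hsat : ∀ x ∈ B, ∀ (σ : Equiv.Perm ℕ) (z : XB (Γ₀ × Γ)), IsoB σ (J N x) z →
      z ∈ Φ '' (T N ×ˢ B) := by
    intro x hx σ z hz
    obtain ⟨h, hh, hT⟩ := ex_rep N σ
    have h1 : IsoB h (tr (code h.symm) x) x := by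
      have := isoB_symm (tr_iso h.symm x)
      exact this
    have h2 : tr (code h.symm) x ∈ B := hi x hx _ h.symm (isoB_symm hh) (isoB_symm h1)
    exact ⟨(code (h.trans σ), tr (code h.symm) x), ⟨hT, h2⟩,
      tr_eq (isoB_trans (j_iso hh h1) hz)⟩
  have hinv : ∀ z ∈ Φ '' (T N ×ˢ B), ∀ (z' : XB (Γ₀ × Γ)) (σ : Equiv.Perm ℕ), IsoB σ z z' →
      z' ∈ Φ '' (T N ×ˢ B) := by
    rintro _ ⟨⟨c, x⟩, ⟨hc, hx⟩, rfl⟩ z' σ hz
    obtain ⟨τ, rfl⟩ := isC_ex hc.1
    exact hsat x hx (τ.trans σ) z' (isoB_trans (tr_iso _ _) hz)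
  have hHD' : ∀ z ∈ Φ '' (T N ×ˢ B), HD z := by
    rintro _ ⟨⟨c, x⟩, ⟨hc, hx⟩, rfl⟩
    obtain ⟨τ, rfl⟩ := isC_ex hc.1
    exact hd_iso (tr_iso τ (J N x)) (hHD x hx)
  rcases hTD (Γ₀ × Γ) _ hB' hHD' hinv with ⟨f, hf⟩ | ⟨c, hc1, hc2, hc3⟩
  · left
    have h1 : ∀ n, ∃ y : XB Γ, (∃ y' ∈ B, ∃ σ : Equiv.Perm ℕ, IsoB σ (f n) (J N y')) →
        y ∈ B ∧ ∃ σ : Equiv.Perm ℕ, IsoB σ (f n) (J N y) := by
      intro n
      by_cases h : ∃ y' ∈ B, ∃ σ : Equiv.Perm ℕ, IsoB σ (f n) (J N y')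
      · obtain ⟨y', hy', σ, hσ⟩ := h
        exact ⟨y', fun _ => ⟨hy', σ, hσ⟩⟩
      · exact ⟨(fun _ _ _ => false, fun _ _ => 0, fun _ _ => false), fun h' => absurd h' h⟩
    choose g hg using h1
    refine ⟨g, fun x hx => ?_⟩
    obtain ⟨n, σ, hσ⟩ := hf (J N x) (hsat x hx _ _ (isoB_one _))
    obtain ⟨h2, τ, hτ⟩ := hg n ⟨x, hx, σ, hσ⟩
    exact ⟨n, _, key _ h2 x hx _ (isoB_trans (isoB_symm hτ) hσ)⟩
  · right
    have hc2' : ∀ A, ∃ p : (ℕ → ℕ) × XB Γ, p ∈ T N ×ˢ B ∧ Φ p = c A := fun A => hc2 A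
    set Z : Set ((ℕ → Bool) × ((ℕ → ℕ) × XB Γ)) := {p | p.2 ∈ T N ×ˢ B ∧ Φ p.2 = c p.1} with hZ
    have hZm : MeasurableSet Z := by
      refine (measurable_snd (hTm.prod hB)).inter ?_
      exact measurableSet_eq_fun (hΦm.comp measurable_snd) (hc1.measurable.comp measurable_fst)
    have hE : Equivalence fun p q : (ℕ → Bool) × ((ℕ → ℕ) × XB Γ) => p.1 = q.1 :=
      ⟨fun _ => rfl, fun h => h.symm, fun h h' => h.trans h'⟩
    have hEm : MeasurableSet {q : ((ℕ → Bool) × ((ℕ → ℕ) × XB Γ)) ×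
        ((ℕ → Bool) × ((ℕ → ℕ) × XB Γ)) | q.1.1 = q.2.1} :=
      measurableSet_eq_fun (measurable_fst.comp measurable_fst)
        (measurable_fst.comp measurable_snd)
    rcases Pool.Agent.H579R3.SV.silver hE hEm hZm.analyticSet with
      ⟨S, hS1, hS2, hS3⟩ | ⟨h, hh1, hh2, hh3⟩
    · exfalso
      have h1 : (Set.univ : Set (ℕ → Bool)) ⊆ Prod.fst '' S := by
        intro A _
        obtain ⟨p, hp, he⟩ := hc2' A
        obtain ⟨q, hq, hq'⟩ := hS3 (A, p) ⟨hp, he⟩
        exact ⟨q, hq, hq'.symm⟩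
      exact Pool.Agent.H899R2.VP.not_countable_cantor
        (Set.countable_univ_iff.1 ((hS2.image _).mono h1))
    · refine ⟨fun b => (h b).2.2, (continuous_snd.comp continuous_snd).comp hh1,
        fun b => (hh2 b).1.2, fun b b' hbb => ?_⟩
      obtain ⟨σ, hσ1, hσ2⟩ := hbb
      by_contra hne
      refine hh3 b b' hne (hc3 _ _ ?_)
      have h1 := hh2 b
      have h2 := hh2 b'
      obtain ⟨τ, hτ⟩ := isC_ex h1.1.1.1
      obtain ⟨τ', hτ'⟩ := isC_ex h2.1.1.1
      have h3 : IsoB τ (J N (h b).2.2) (c (h b).1) := by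
        rw [← h1.2]
        show IsoB τ (J N (h b).2.2) (tr (h b).2.1 (J N (h b).2.2))
        rw [hτ]
        exact tr_iso _ _
      have h4 : IsoB τ' (J N (h b').2.2) (c (h b').1) := by
        rw [← h2.2]
        show IsoB τ' (J N (h b').2.2) (tr (h b').2.1 (J N (h b').2.2))
        rw [hτ']
        exact tr_iso _ _
      exact ⟨_, isoB_trans (isoB_trans (isoB_symm h3) (j_iso hσ1 hσ2)) h4⟩

end Pool.Agent.Y560.TC
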